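import Mathlib
import Pool.Agent.Lib.MP_c82530_nt.AG.NF
import Pool.Agent.Lib.MP_c82530_nt.AG.Fin
import Pool.Agent.Lib.MP_c82530_nt.AH.Stm

set_option autoImplicit false

/-!
# One space for all number fields: pieces

`SP K` is the set of the natural numbers `p` such that all primes of `K` above `p` have norm `p`;
for a prime number `p` this means that all residue degrees above `p` are `1`.
-/

namespace Pool.Agent.Lib.MP_c82530_nt.AJ

open Set Pool.Agent.Lib.MP_c82530_nt Pool.Agent.Lib.MP_c82530_nt.AA
  Pool.Agent.Lib.MP_c82530_nt.AG Module Filter Topology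
open NumberField IsDedekindDomain

/-- all primes of `K` above `p` have norm `p` -/
def SP (K : Type) [Field K] [NumberField K] : Set ℕ :=
  {p | ∀ w : HeightOneSpectrum (𝓞 K), (p : 𝓞 K) ∈ w.asIdeal → Ideal.absNorm w.asIdeal = p}

/-- the prime numbers in `S` -/
abbrev Ps (S : Set ℕ) : Type := {p : ℕ // p.Prime ∧ p ∈ S}

/-- the norm of a prime number -/
def qs (S : Set ℕ) (p : Ps S) : ℕ := p.1

/-- the real logarithm of a prime number -/
noncomputable def fs (S : Set ℕ) (p : Ps S) : ℂ := ((Real.log (p.1 : ℝ) : ℝ) : ℂ)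

/-- piece DVN: `theorem p_dvn (hcnt : S_cnt) (htoi : S_toi) (hisl : S_isl) (hcnz : S_cnz)`
`(hzs : S_zs) (hzex : S_zex) : S_dvn`, the sum of `1 / N(w)` over all primes `w` of `K` diverges.
Proof: by `S_cnt` (from `S_cnz`) the weight `Wt (qn K) univ (L x)` is at least `c * log x`, so it
is unbounded; it is the sum of `1 / nm m` over `L x`, at most `ZP (qn K) P` by `S_zs`, `P` the union
of the supports, and this is at most `exp (2 * ∑ w ∈ P, 1 / qn K w)` by `S_zex`. -/
def S_dvn : Prop := ∀ (K : Type) [Field K] [NumberField K] (B : ℝ),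
  ∃ P : Finset (HeightOneSpectrum (𝓞 K)), B ≤ ∑ w ∈ P, (qn K w : ℝ)⁻¹

/-- piece SPG: `theorem p_spg (hdvn : S_dvn) : S_spg`, for a Galois number field `L`.
Proof: every prime `w` of `L` is above exactly one prime number `p`, `N(w)` is a power `p ^ f`,
`f ≥ 1`, and there are at most `[L : ℚ]` primes above `p`. The primes `w` with `f ≥ 2` have
`∑ 1 / N(w) ≤ [L : ℚ] ∑ 1 / p ^ 2`, bounded. If `f = 1` for one `w` above `p` then, `L` being Galois,
all residue degrees above `p` are `1` (Mathlib `Ideal.inertiaDeg_eq_of_isGalois` or the transitivity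
of the Galois group on the primes above `p`), so `p ∈ SP L`. So
`∑ w ∈ P, 1 / N(w) ≤ C + [L : ℚ] ∑ p ∈ P', 1 / p` with `P'` the set of the `p ∈ SP L` below `P`. -/
def S_spg : Prop := ∀ (L : Type) [Field L] [NumberField L] [IsGalois ℚ L] (B : ℝ),
  ∃ P : Finset ℕ, (∀ p ∈ P, p.Prime ∧ p ∈ SP L) ∧ B ≤ ∑ p ∈ P, (p : ℝ)⁻¹

/-- piece MNO: `SP` is decreasing.
Proof: let `v` be a prime of `K` with `p ∈ v`; by lying over (`𝓞 L` is integral over `𝓞 K`) there is
a prime `w` of `L` with preimage `v`; `N(w) = p`, and `𝓞 K / v` embeds into `𝓞 L / w`, which has `p`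
elements, so `N(v) = p` (`N(v) > 1` is the cardinality of an additive subgroup of a group of prime
order; if `p` is not prime, note that `p ∈ v` implies `N(w) = p` is a prime power: use divisibility
of the cardinalities of additive groups and `p ∈ v`; it is enough to treat prime numbers `p`). -/
def S_mno : Prop := ∀ (K L : Type) [Field K] [NumberField K] [Field L] [NumberField L],
  (K →+* L) → ∀ p : ℕ, p.Prime → p ∈ SP L → p ∈ SP K

/-- piece CPS: compositum: two number fields embed into a Galois number field, for example the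
splitting field of the product of the minimal polynomials of two primitive elements (inside `ℂ` or
an algebraic closure of `ℚ`), or the normal closure of a compositum. -/
def S_cps : Prop := ∀ (K₁ K₂ : Type) [Field K₁] [NumberField K₁] [Field K₂] [NumberField K₂],
  ∃ (L : Type) (_ : Field L) (_ : NumberField L), IsGalois ℚ L ∧ Nonempty (K₁ →+* L) ∧
    Nonempty (K₂ →+* L)

/-- piece NRM: `theorem p_nrm (hlg : S_lg) (htoi : S_toi) : S_nrm`, from the primes of `K` to the
prime numbers.
Proof: `C' = C ⊔ Ck` with `Ck` from `S_lg`. For a prime number `p ∈ SP K` the ideal `(p)` is `toI m`,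
all `w` in the support of `m` contain `p` and have norm `p`, and
`log p - Fv f m` is in `Ck`. If `log p` is not in `C' ⊔ KK W` then `f w ∉ C ⊔ KK W` for some
`w = w p` in the support (see `fv_mem` in AG/Claim.lean); `p ↦ w p` is injective as `N(w p) = p`, so
the sum of `1 / p` over the bad `p ∈ P` is at most the sum of `1 / N(w)` over the bad `w` in the
image. -/
def S_nrm : Prop := ∀ (K : Type) [Field K] [NumberField K] (σ : K →+* ℂ) (h : ℕ)
  (γ : HeightOneSpectrum (𝓞 K) → 𝓞 K), IsGen h γ → ∀ C W : Submodule ℚ ℂ,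
  CoP (qn K) (fn σ h γ) C W → ∃ C' : Submodule ℚ ℂ, CoP (qs (SP K)) (fs (SP K)) C' W

/-- piece INS: `Ind` for the real logarithms of prime numbers; as `log_diff_alg` or `p_ind` in
AG/P_ind.lean (`log_transcendental` and unique factorization of integers). -/
def S_ins : Prop := ∀ S : Set ℕ, Ind (fs S)

end Pool.Agent.Lib.MP_c82530_nt.AJ
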