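import Mathlib
import Pool.Agent.Lib.MP_c82530_nt.AJ.Stm
import Pool.Agent.Lib.MP_c82530_nt.AG.Main

set_option autoImplicit false

namespace Pool.Agent.Lib.MP_c82530_nt.AJ

open Set Pool.Agent.Lib.MP_c82530_nt Pool.Agent.Lib.MP_c82530_nt.AA
  Pool.Agent.Lib.MP_c82530_nt.AG Module Filter Topology
open NumberField IsDedekindDomain
open Pool.Agent.Lib.MP_c82530_nt.AE (mem_sup_of_add)

section Abs

variable {ι : Type} {q : ι → ℕ} {f : ι → ℂ} {L : ℕ → Finset (ι →₀ ℕ)}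

/-- abstract main theorem, with the origin of `V` -/
theorem main_abs2 [DecidableEq ι] (hzs : AG.S_zs) (hlos : S_los) (hcmk : S_cmk) (htwo : S_two)
    (hcut : S_cut) (hmta : S_mta) (hlim : S_lim) (hexk : S_exk) (hfra : S_fra) (hgrp : S_grp)
    (hzex : S_zex) (hpos : S_pos) (hrrk : AE.S_rrk) (hadm : AE.S_adm)
    (hq : ∀ i, 2 ≤ q i) (hL : IsL q L) (hMt : Mt0 q L) (hLow : Low q L) (hInd : Ind f) :
    ∃ V : Submodule ℚ ℂ, Good V ∧ (V = ⊥ ∨ ∃ C, CoP q f C V) ∧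
      (∀ (τ : ι ≃ ι) (D : Submodule ℚ ℂ), (∀ i, q (τ i) = q i) → FiniteDimensional ℚ D →
        (∀ i, (starRingEnd ℂ) (f i) - f (τ i) ∈ D) → ∀ v ∈ V, (starRingEnd ℂ) v ∈ V) ∧
      (V = ⊥ → ∀ (r : ℕ) (C : Submodule ℚ ℂ), FiniteDimensional ℚ C →
        LN q L {m | ∃ S, Good S ∧ finrank ℚ S ≤ r ∧ Fv f m ∈ C ⊔ KK S}) ∧
      (V ≠ ⊥ → ∀ C : Submodule ℚ ℂ, FiniteDimensional ℚ C →
        LN q L {m | ∃ S, Good S ∧ ¬ V ≤ S ∧ Fv f m ∈ C ⊔ KK S}) ∧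
      (V ≠ ⊥ → ∀ C : Submodule ℚ ℂ, FiniteDimensional ℚ C →
        ∃ B : ℝ, ∀ Y : Finset (ι →₀ ℕ), (∀ m ∈ Y, ∃ S, Good S ∧ S ⊓ V = ⊥ ∧
          Fv f m ∈ C ⊔ KK S) → ∑ m ∈ Y, (nm q m : ℝ)⁻¹ ≤ B) ∧
      (V ≠ ⊥ → ∃ C : Submodule ℚ ℂ, FiniteDimensional ℚ C ∧
        ∃ δ : ℝ, 0 < δ ∧ ∀ᶠ x : ℕ in atTop,
          δ * Real.log x ≤ Wt q {m | Fv f m ∈ C ⊔ KK V} (L x)) := by
  classical
  by_cases hno : ∃ C W, CoP q f C W
  · obtain ⟨C₀, V, hV, hmin⟩ := exists_min hadm hno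
    have hVne : V ≠ ⊥ := by
      rintro rfl
      exact not_CoP_bot hpos hgrp hq hL hLow hInd hV
    have f0 := hV.1
    -- an admissible family for every shift space
    have hfamily : ∀ C : Submodule ℚ ℂ, FiniteDimensional ℚ C → ∃ C' : Submodule ℚ ℂ,
        FiniteDimensional ℚ C' ∧ C ≤ C' ∧ AE.Adm (fun S => C' ⊔ KK S) ∧ Bd q f (C' ⊔ KK V) ∧
        ∀ W, Good W → Bd q f (C' ⊔ KK W) → V ≤ W := by
      intro C hC
      obtain ⟨C', hC', hle, hK⟩ := hadm (C ⊔ C₀) (Submodule.finiteDimensional_sup C C₀)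
      exact ⟨C', hC', le_sup_left.trans hle, hK,
        hV.2.2.mono (sup_le_sup_right (le_sup_right.trans hle) (KK V)),
        fun W hW hB => hmin C' W ⟨hC', hW, hB⟩⟩
    refine ⟨V, hV.2.1, Or.inr ⟨C₀, hV⟩, fun τ D hτq hD hτ => conj_stable hV hmin τ hτq hD hτ,
      fun h => absurd h hVne, ?_, ?_, ?_⟩
    · intro _ C hC
      obtain ⟨C', hC', hle, hK, hB, hmin'⟩ := hfamily C hC
      apply (LN_B hlos hcmk htwo hcut hmta hrrk hlim hexk hfra hq hL hMt hK hV.2.1 hB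
        hmin' 0).mono
      rintro m ⟨S, hS, hVS, hm⟩
      refine ⟨S, hS, hVS, ?_⟩
      rw [zero_add]
      exact sup_le_sup_right hle _ hm
    · intro _ C hC
      obtain ⟨C', hC', hle, hK, hB, hmin'⟩ := hfamily C hC
      obtain ⟨B, hbd⟩ := bdd_disjoint hzs hzex hgrp hq hInd hC' hK hV.2.1 hB
      refine ⟨B, fun Y hY => hbd Y fun m hm => ?_⟩
      obtain ⟨S, hS, hSV, h⟩ := hY m hm
      exact ⟨S, hS, hSV, sup_le_sup_right hle _ h⟩
    · intro _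
      exact ⟨C₀, hV.1, hpos ι q f L hq hL hLow _ hV.2.2⟩
  · push Not at hno
    refine ⟨⊥, Good.bot, Or.inl rfl, ?_, ?_, fun h => absurd rfl h, fun h => absurd rfl h,
      fun h => absurd rfl h⟩
    · intro _ _ _ _ _ v hv
      rw [Submodule.mem_bot] at hv ⊢
      rw [hv, map_zero]
    · intro _ r C hC
      obtain ⟨C', hC', hle, hK⟩ := hadm C hC
      apply (LN_K hlos hcmk htwo hcut hmta hq hL hMt hK (𝒞 := fun _ => True)
        (fun _ _ _ _ _ => trivial) (fun W hW _ hB => hno C' W ⟨hC', hW, hB⟩) r 0).mono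
      rintro m ⟨S, hS, hr, hm⟩
      refine ⟨S, hS, trivial, hr, ?_⟩
      rw [zero_add]
      exact sup_le_sup_right hle _ hm

end Abs

/-- one number field, with the origin of `V` -/
theorem main_k (hzs : AG.S_zs) (hlos : S_los) (hcmk : S_cmk) (htwo : S_two)
    (hcut : S_cut) (hmta : S_mta) (hlim : S_lim) (hexk : S_exk) (hfra : S_fra) (hgrp : S_grp)
    (hzex : S_zex) (hpos : S_pos) (hrrk : AE.S_rrk) (hadm : AE.S_adm)
    (hcnt : S_cnt) (hshift : S_shift) (htoi : S_toi) (hisl : S_isl) (hcnz : S_cnz)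
    (hgen : S_gen) (hlg : S_lg) (hind : S_ind) (hconj : S_conj) (hcls : S_cls) (hbr : S_br)
    (k : Type) [Field k] [NumberField k] (σ : k →+* ℂ) :
    ∃ V : Submodule ℚ ℂ, (V = ⊥ ∨ ∃ (h : ℕ) (γ : HeightOneSpectrum (𝓞 k) → 𝓞 k)
        (C : Submodule ℚ ℂ), IsGen h γ ∧ CoP (qn k) (fn σ h γ) C V) ∧
      FiniteDimensional ℚ V ∧ (∀ v ∈ V, IsAlgebraic ℚ v) ∧
      ((∀ x : k, ∃ y : k, σ y = (starRingEnd ℂ) (σ x)) → ∀ v ∈ V, (starRingEnd ℂ) v ∈ V) ∧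
      (V = ⊥ → ∀ (n : ℕ) (C : Submodule ℚ ℂ), FiniteDimensional ℚ C →
        Tendsto (fun x : ℕ => ids k {I | ∃ (β : 𝓞 k) (l : ℂ), Ideal.span {β} = I ∧
          Complex.exp l = σ β ∧ ∃ c ∈ C, ∃ α : Fin n → ℂ, (∀ i, IsAlgebraic ℚ (α i)) ∧
          LinearIndependent ℚ α ∧ ¬ AI α (c + l)} x / Real.log x) atTop (𝓝 0)) ∧
      (V ≠ ⊥ → ∀ C : Submodule ℚ ℂ, FiniteDimensional ℚ C →
        Tendsto (fun x : ℕ => ids k {I | ∃ (β : 𝓞 k) (l : ℂ), Ideal.span {β} = I ∧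
          Complex.exp l = σ β ∧ ∃ c ∈ C, ∃ (n : ℕ) (α : Fin n → ℂ),
          (∀ i, IsAlgebraic ℚ (α i)) ∧ LinearIndependent ℚ α ∧
          ¬ V ≤ Submodule.span ℚ (range α) ∧ ¬ AI α (c + l)} x / Real.log x) atTop (𝓝 0)) ∧
      (V ≠ ⊥ → ∀ C : Submodule ℚ ℂ, FiniteDimensional ℚ C →
        Summable ({I : Ideal (𝓞 k) | ∃ (β : 𝓞 k) (l : ℂ), Ideal.span {β} = I ∧
          Complex.exp l = σ β ∧ ∃ c ∈ C, ∃ (n : ℕ) (α : Fin n → ℂ),
          (∀ i, IsAlgebraic ℚ (α i)) ∧ LinearIndependent ℚ α ∧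
          Disjoint (Submodule.span ℚ (range α)) V ∧ ¬ AI α (c + l)}.indicator
            (fun I : Ideal (𝓞 k) => (Ideal.absNorm I : ℝ)⁻¹))) ∧
      (V ≠ ⊥ → ∃ C : Submodule ℚ ℂ, FiniteDimensional ℚ C ∧
        ∃ δ : ℝ, 0 < δ ∧ ∀ᶠ x : ℕ in atTop, δ * Real.log x ≤ ids k {I | (∃ β : 𝓞 k,
          Ideal.span {β} = I) ∧ ∀ (β : 𝓞 k) (l : ℂ), Ideal.span {β} = I →
          Complex.exp l = σ β → ∃ c ∈ C, ∀ (n : ℕ) (α : Fin n → ℂ),
          (∀ i, IsAlgebraic ℚ (α i)) → LinearIndependent ℚ α →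
          V ≤ Submodule.span ℚ (range α) → ¬ AI α (c + l)} x) := by
  classical
  obtain ⟨t1, t2, t3, t4, t5⟩ := htoi k
  obtain ⟨L, hL⟩ := hisl k
  obtain ⟨κ, hκ, hlim0⟩ := hcnz k L hL
  obtain ⟨hMt, hLow⟩ := hcnt _ (qn k) L t1 hL κ hκ hlim0
  obtain ⟨h, γ, hγ⟩ := hgen k
  obtain ⟨Ck, hCk, hlgk⟩ := hlg k σ h γ hγ
  obtain ⟨V, hV, hor, hVc, hV0, hV1, hV2, hV3⟩ := main_abs2 hzs hlos hcmk htwo hcut hmta hlim hexk hfra
    hgrp hzex hpos hrrk hadm t1 hL hMt hLow (hind k σ h γ hγ)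
  set f := fn σ h γ with hf
  -- the transfer of a dependence
  have key : ∀ (C : Submodule ℚ ℂ) (m : HeightOneSpectrum (𝓞 k) →₀ ℕ) (β : 𝓞 k) (l : ℂ),
      Ideal.span {β} = toI m → Complex.exp l = σ β → ∀ c ∈ C, ∀ (n : ℕ) (α : Fin n → ℂ),
      (∀ i, IsAlgebraic ℚ (α i)) → LinearIndependent ℚ α → ¬ AI α (c + l) →
      Fv f m ∈ (C ⊔ Ck) ⊔ KK (Submodule.span ℚ (range α)) := by
    intro C m β l hβ hl c hc n α hα hlin hAI
    have h1 : l ∈ C ⊔ KK (Submodule.span ℚ (range α)) :=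
      mem_sup_of_add hc (mem_KK.mpr (inK_of_dep hα hlin hAI))
    have h2 := hlgk m β l hβ hl
    have e : Fv f m = l - (l - Fv f m) := by ring
    rw [e]
    apply Submodule.sub_mem
    · exact (sup_le_sup_right (le_sup_left : C ≤ C ⊔ Ck)
        (KK (Submodule.span ℚ (range α)))) h1
    · exact Submodule.mem_sup_left (Submodule.mem_sup_right h2)
  refine ⟨V, hor.imp_right fun ⟨C, hC⟩ => ⟨h, γ, C, hγ, hC⟩, hV.1, hV.2, ?_, ?_, ?_, ?_, ?_⟩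
  · intro hσ
    obtain ⟨τ, hτq, D, hD, hτ⟩ := hconj k σ h γ hγ hσ
    exact hVc τ D hτq hD hτ
  · intro h0 n C hC
    have h1 := hV0 h0 n (C ⊔ Ck) (Submodule.finiteDimensional_sup C Ck)
    have h2 := h1.mono (B := {m | toI m ∈ {I : Ideal (𝓞 k) | ∃ (β : 𝓞 k) (l : ℂ),
      Ideal.span {β} = I ∧ Complex.exp l = σ β ∧ ∃ c ∈ C, ∃ α : Fin n → ℂ,
      (∀ i, IsAlgebraic ℚ (α i)) ∧ LinearIndependent ℚ α ∧ ¬ AI α (c + l)}}) (by
        rintro m ⟨β, l, hβ, hl, c, hc, α, hα, hlin, hAI⟩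
        refine ⟨_, good_span hα, ?_, key C m β l hβ hl c hc n α hα hlin hAI⟩
        have h1 : finrank ℚ (Submodule.span ℚ (range α)) = Fintype.card (Fin n) :=
          finrank_span_eq_card hlin
        rw [h1, Fintype.card_fin])
    refine h2.congr fun x => ?_
    unfold ids
    rw [hbr k L hL]
  · intro h0 C hC
    have h1 := hV1 h0 (C ⊔ Ck) (Submodule.finiteDimensional_sup C Ck)
    have h2 := h1.mono (B := {m | toI m ∈ {I : Ideal (𝓞 k) | ∃ (β : 𝓞 k) (l : ℂ),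
      Ideal.span {β} = I ∧ Complex.exp l = σ β ∧ ∃ c ∈ C, ∃ (n : ℕ) (α : Fin n → ℂ),
      (∀ i, IsAlgebraic ℚ (α i)) ∧ LinearIndependent ℚ α ∧
      ¬ V ≤ Submodule.span ℚ (range α) ∧ ¬ AI α (c + l)}}) (by
        rintro m ⟨β, l, hβ, hl, c, hc, n, α, hα, hlin, hVα, hAI⟩
        exact ⟨_, good_span hα, hVα, key C m β l hβ hl c hc n α hα hlin hAI⟩)
    refine h2.congr fun x => ?_
    unfold ids
    rw [hbr k L hL]
  · intro h0 C hC
    obtain ⟨B, hbd⟩ := hV2 h0 (C ⊔ Ck) (Submodule.finiteDimensional_sup C Ck)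
    set A : Set (Ideal (𝓞 k)) := {I : Ideal (𝓞 k) | ∃ (β : 𝓞 k) (l : ℂ), Ideal.span {β} = I ∧
          Complex.exp l = σ β ∧ ∃ c ∈ C, ∃ (n : ℕ) (α : Fin n → ℂ),
          (∀ i, IsAlgebraic ℚ (α i)) ∧ LinearIndependent ℚ α ∧
          Disjoint (Submodule.span ℚ (range α)) V ∧ ¬ AI α (c + l)} with hA
    choose! g hg using t4
    apply summable_of_sum_le (c := B)
    · intro I
      apply Set.indicator_nonneg
      intro I _; positivity
    · intro u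
      set u' : Finset (Ideal (𝓞 k)) := (u.filter (fun I => I ∈ A)).filter (fun I => I ≠ ⊥)
        with hu'
      have hu'0 : ∀ I ∈ u', I ≠ ⊥ ∧ I ∈ A := by
        intro I hI
        rw [hu', Finset.mem_filter, Finset.mem_filter] at hI
        exact ⟨hI.2, hI.1.2⟩
      have h1 : ∑ I ∈ u, (A.indicator (fun I : Ideal (𝓞 k) => (Ideal.absNorm I : ℝ)⁻¹)) I =
          ∑ I ∈ u', (Ideal.absNorm I : ℝ)⁻¹ := by
        rw [hu', Finset.sum_filter, Finset.sum_filter]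
        apply Finset.sum_congr rfl
        intro I _
        rw [Set.indicator_apply]
        by_cases hI0 : I = ⊥
        · simp [hI0]
        · simp [hI0]
      have hinj : Set.InjOn g (u' : Set (Ideal (𝓞 k))) := by
        intro I hI I' hI' e
        rw [← hg I (hu'0 I hI).1, ← hg I' (hu'0 I' hI').1, e]
      have h2 : ∑ I ∈ u', (Ideal.absNorm I : ℝ)⁻¹ =
          ∑ m ∈ u'.image g, (nm (qn k) m : ℝ)⁻¹ := by
        rw [Finset.sum_image hinj]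
        apply Finset.sum_congr rfl
        intro I hI
        rw [← (t2 (g I)).1, hg I (hu'0 I hI).1]
      rw [h1, h2]
      apply hbd
      intro m hm
      obtain ⟨I, hI, rfl⟩ := Finset.mem_image.mp hm
      obtain ⟨hI0, β, l, hβ, hl, c, hc, n, α, hα, hlin, hdis, hAI⟩ := hu'0 I hI
      exact ⟨_, good_span hα, hdis.eq_bot,
        key C (g I) β l (by rw [hg I hI0]; exact hβ) hl c hc n α hα hlin hAI⟩
  · intro h0
    obtain ⟨C₀, hC₀, hδ⟩ := hV3 h0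
    obtain ⟨J, hJ⟩ := hcls k
    set F : Submodule ℚ ℂ := Submodule.span ℚ (Fv f '' (J : Set _)) with hF
    have hFd : FiniteDimensional ℚ F :=
      FiniteDimensional.span_of_finite ℚ (J.finite_toSet.image _)
    have hCF : FiniteDimensional ℚ (Ck ⊔ F : Submodule ℚ ℂ) :=
      Submodule.finiteDimensional_sup Ck F
    refine ⟨C₀ ⊔ (Ck ⊔ F), Submodule.finiteDimensional_sup _ _, ?_⟩
    set BI : Set (Ideal (𝓞 k)) := {I | (∃ β : 𝓞 k,
          Ideal.span {β} = I) ∧ ∀ (β : 𝓞 k) (l : ℂ), Ideal.span {β} = I →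
          Complex.exp l = σ β → ∃ c ∈ C₀ ⊔ (Ck ⊔ F), ∀ (n : ℕ) (α : Fin n → ℂ),
          (∀ i, IsAlgebraic ℚ (α i)) → LinearIndependent ℚ α →
          V ≤ Submodule.span ℚ (range α) → ¬ AI α (c + l)} with hBI
    obtain ⟨δ, hδ0, hδ1⟩ := hshift _ (qn k) L t1 hL {m | Fv f m ∈ C₀ ⊔ KK V}
      {m | toI m ∈ BI} J (by
        intro m hm
        obtain ⟨j, hj, β₀, hβ₀⟩ := hJ m
        refine ⟨j, hj, ⟨β₀, hβ₀⟩, ?_⟩
        intro β l hβ hl
        have h1 := hlgk (m + j) β l hβ hl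
        rw [fv_add] at h1
        obtain ⟨c, hc, x, hx, hcx⟩ := Submodule.mem_sup.mp hm
        have hjF : Fv f j ∈ F := Submodule.subset_span ⟨j, hj, rfl⟩
        refine ⟨-(c + ((l - (Fv f m + Fv f j)) + Fv f j)), Submodule.neg_mem _
          (Submodule.add_mem _ (Submodule.mem_sup_left hc) (Submodule.mem_sup_right
            (Submodule.add_mem _ (Submodule.mem_sup_left h1) (Submodule.mem_sup_right hjF)))),
          fun n α hα hlin hVα hAI => ?_⟩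
        have e : -(c + ((l - (Fv f m + Fv f j)) + Fv f j)) + l = x := by
          rw [← hcx]; ring
        rw [e] at hAI
        exact (indep_iff hα hlin).mp hAI (InK.mono (mem_KK.mp hx) hVα)) hδ
    refine ⟨δ, hδ0, ?_⟩
    filter_upwards [hδ1] with x hx
    unfold ids
    rw [hbr k L hL]
    exact hx


end Pool.Agent.Lib.MP_c82530_nt.AJ
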