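import Mathlib
import Pool.Agent.Lib.MP_c82530_nt.AJ.Abs

set_option autoImplicit false

namespace Pool.Agent.Lib.MP_c82530_nt.AJ

open Set Pool.Agent.Lib.MP_c82530_nt Pool.Agent.Lib.MP_c82530_nt.AA
  Pool.Agent.Lib.MP_c82530_nt.AG Module Filter Topology
open NumberField IsDedekindDomain

lemma qs_two (S : Set ℕ) (p : Ps S) : 2 ≤ qs S p := p.2.1.two_le

/-- `CoP` for a smaller set of prime numbers -/
lemma CoP_sub {S T : Set ℕ} (h : ∀ p : ℕ, p.Prime → p ∈ S → p ∈ T) {C W : Submodule ℚ ℂ}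
    (hT : CoP (qs T) (fs T) C W) : CoP (qs S) (fs S) C W := by
  classical
  obtain ⟨hC, hW, B, hB⟩ := hT
  refine ⟨hC, hW, B, fun P => ?_⟩
  let e : Ps S ↪ Ps T := ⟨fun p => ⟨p.1, p.2.1, h p.1 p.2.1 p.2.2⟩, by
    intro p p' hpp
    apply Subtype.ext
    exact congrArg (fun x : Ps T => x.1) hpp⟩
  refine le_trans (le_of_eq ?_) (hB (P.map e))
  unfold AG.EK
  rw [Finset.sum_map]
  rfl

/-- the weight of the prime numbers is bounded if `W = 0` -/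
lemma bdd_of_CoP_bot (hgrp : AG.S_grp) (hins : S_ins) {S : Set ℕ} {C : Submodule ℚ ℂ}
    (h : CoP (qs S) (fs S) C ⊥) :
    ∃ B : ℝ, ∀ P : Finset ℕ, (∀ p ∈ P, p.Prime ∧ p ∈ S) → ∑ p ∈ P, (p : ℝ)⁻¹ ≤ B := by
  classical
  obtain ⟨hC, -, B, hB⟩ := h
  obtain ⟨M, hM⟩ := hgrp (Ps S) (qs S) (fs S) (qs_two S) (hins S) C hC
  refine ⟨B + M, fun P hP => ?_⟩
  set P' : Finset (Ps S) := P.subtype (fun p => p.Prime ∧ p ∈ S) with hP'
  have h1 : ∑ p ∈ P, (p : ℝ)⁻¹ = ∑ p ∈ P', (qs S p : ℝ)⁻¹ := by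
    rw [hP']
    exact (Finset.sum_subtype_of_mem (fun p : ℕ => (p : ℝ)⁻¹) hP).symm
  rw [h1, ← Finset.sum_filter_add_sum_filter_not P' (fun p => fs S p ∉ C ⊔ KK ⊥)]
  apply add_le_add
  · have h2 := hB P'
    rw [ek_eq] at h2
    exact h2
  · set G := P'.filter (fun p => ¬ fs S p ∉ C ⊔ KK ⊥) with hG
    have hinj : Set.InjOn (fun p : Ps S => Finsupp.single p 1) (G : Set (Ps S)) := by
      intro p _ p' _ h
      exact (Finsupp.single_left_injective one_ne_zero) h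
    have h2 := hM 0 (G.image fun p => Finsupp.single p 1) (by
      intro s hs
      obtain ⟨p, hp, rfl⟩ := Finset.mem_image.mp hs
      rw [fv_zero, sub_zero]
      rw [hG, Finset.mem_filter, not_not] at hp
      have e : Fv (fs S) (Finsupp.single p 1) = fs S p := by
        unfold Fv
        rw [Finsupp.sum_single_index] <;> simp
      rw [e]
      exact hp.2)
    rw [Finset.sum_image hinj] at h2
    refine le_trans (le_of_eq ?_) h2
    apply Finset.sum_congr rfl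
    intro p _
    have e : nm (qs S) (Finsupp.single p 1) = qs S p := by
      unfold nm
      rw [Finsupp.prod_single_index] <;> simp
    rw [e]

/-- the universal space -/
theorem exists_universal (hadm : AE.S_adm) (hgrp : AG.S_grp) (hspg : S_spg) (hmno : S_mno)
    (hcps : S_cps) (hins : S_ins) :
    ∃ V : Submodule ℚ ℂ, Good V ∧ (∀ v ∈ V, (starRingEnd ℂ) v ∈ V) ∧
      ∀ (K : Type) [Field K] [NumberField K] (C W : Submodule ℚ ℂ),
        CoP (qs (SP K)) (fs (SP K)) C W → V ≠ ⊥ ∧ V ≤ W := by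
  classical
  by_cases hno : ∃ (n : ℕ) (K : Type) (_ : Field K) (_ : NumberField K) (C V : Submodule ℚ ℂ),
      CoP (qs (SP K)) (fs (SP K)) C V ∧ finrank ℚ V = n
  · obtain ⟨K₀, i1, i2, C₀, V, hV, hn⟩ := Nat.find_spec hno
    have hmin : ∀ (K : Type) [Field K] [NumberField K] (C W : Submodule ℚ ℂ),
        CoP (qs (SP K)) (fs (SP K)) C W → V ≤ W := by
      intro K _ _ C W hW
      obtain ⟨L, i3, i4, -, ⟨h1⟩, ⟨h2⟩⟩ := hcps K₀ K
      have hV' := CoP_sub (S := SP L) (hmno K₀ L h1) hV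
      have hW' := CoP_sub (S := SP L) (hmno K L h2) hW
      obtain ⟨C₃, h3⟩ := hV'.inf hadm hW'
      have h4 : Nat.find hno ≤ finrank ℚ (V ⊓ W : Submodule ℚ ℂ) :=
        Nat.find_min' hno ⟨L, i3, i4, C₃, V ⊓ W, h3, rfl⟩
      rw [← hn] at h4
      have := hV.2.1.1
      have h5 : (V ⊓ W : Submodule ℚ ℂ) = V := Submodule.eq_of_le_of_finrank_le inf_le_left h4
      rw [← h5]
      exact inf_le_right
    have hne : V ≠ ⊥ := by
      rintro rfl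
      obtain ⟨L, i3, i4, hGal, ⟨h1⟩, -⟩ := hcps K₀ K₀
      obtain ⟨B, hB⟩ := bdd_of_CoP_bot hgrp hins (CoP_sub (S := SP L) (hmno K₀ L h1) hV)
      obtain ⟨P, hP, hP2⟩ := hspg L (B + 1)
      have := hB P hP
      linarith
    refine ⟨V, hV.2.1, ?_, fun K _ _ C W h => ⟨hne, hmin K C W h⟩⟩
    have hmap := hV.map (D := ⊥) (Equiv.refl _) (fun _ => rfl) inferInstance (by
      intro p
      rw [Submodule.mem_bot, sub_eq_zero]
      change (starRingEnd ℂ) ((Real.log (p.1 : ℝ) : ℝ) : ℂ) = ((Real.log (p.1 : ℝ) : ℝ) : ℂ)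
      exact Complex.conj_ofReal _)
    intro v hv
    obtain ⟨w, hw, hwv⟩ := hmin K₀ _ _ hmap hv
    have : (starRingEnd ℂ) v = w := by
      rw [← hwv, cjL_apply, Complex.conj_conj]
    rw [this]; exact hw
  · push Not at hno
    refine ⟨⊥, Good.bot, ?_, ?_⟩
    · intro v hv
      rw [Submodule.mem_bot] at hv ⊢
      rw [hv, map_zero]
    · intro K i1 i2 C W h
      exact absurd rfl (hno _ K i1 i2 C W h)

/-- **main theorem**: one space for all number fields -/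
theorem main (hzs : AG.S_zs) (hlos : S_los) (hcmk : S_cmk) (htwo : S_two)
    (hcut : S_cut) (hmta : S_mta) (hlim : S_lim) (hexk : S_exk) (hfra : S_fra) (hgrp : S_grp)
    (hzex : S_zex) (hpos : S_pos) (hrrk : AE.S_rrk) (hadm : AE.S_adm)
    (hcnt : S_cnt) (hshift : S_shift) (htoi : S_toi) (hisl : S_isl) (hcnz : S_cnz)
    (hgen : S_gen) (hlg : S_lg) (hind : S_ind) (hconj : S_conj) (hcls : S_cls) (hbr : S_br)
    (hspg : S_spg) (hmno : S_mno) (hcps : S_cps) (hins : S_ins) (hnrm : S_nrm) :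
    ∃ V : Submodule ℚ ℂ, FiniteDimensional ℚ V ∧ (∀ v ∈ V, IsAlgebraic ℚ v) ∧
      (∀ v ∈ V, (starRingEnd ℂ) v ∈ V) ∧
      ∀ (k : Type) [Field k] [NumberField k] (σ : k →+* ℂ),
      (∀ (n : ℕ) (C : Submodule ℚ ℂ), FiniteDimensional ℚ C →
        Tendsto (fun x : ℕ => ids k {I | ∃ (β : 𝓞 k) (l : ℂ), Ideal.span {β} = I ∧
          Complex.exp l = σ β ∧ ∃ c ∈ C, ∃ α : Fin n → ℂ, (∀ i, IsAlgebraic ℚ (α i)) ∧
          LinearIndependent ℚ α ∧ (V = ⊥ ∨ ¬ V ≤ Submodule.span ℚ (range α)) ∧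
          ¬ AI α (c + l)} x / Real.log x) atTop (𝓝 0)) ∧
      ∃ W : Submodule ℚ ℂ, (W = ⊥ ∨ V ≠ ⊥ ∧ V ≤ W) ∧ FiniteDimensional ℚ W ∧
      (∀ v ∈ W, IsAlgebraic ℚ v) ∧
      ((∀ x : k, ∃ y : k, σ y = (starRingEnd ℂ) (σ x)) → ∀ v ∈ W, (starRingEnd ℂ) v ∈ W) ∧
      (W = ⊥ → ∀ (n : ℕ) (C : Submodule ℚ ℂ), FiniteDimensional ℚ C →
        Tendsto (fun x : ℕ => ids k {I | ∃ (β : 𝓞 k) (l : ℂ), Ideal.span {β} = I ∧
          Complex.exp l = σ β ∧ ∃ c ∈ C, ∃ α : Fin n → ℂ, (∀ i, IsAlgebraic ℚ (α i)) ∧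
          LinearIndependent ℚ α ∧ ¬ AI α (c + l)} x / Real.log x) atTop (𝓝 0)) ∧
      (W ≠ ⊥ → ∀ C : Submodule ℚ ℂ, FiniteDimensional ℚ C →
        Tendsto (fun x : ℕ => ids k {I | ∃ (β : 𝓞 k) (l : ℂ), Ideal.span {β} = I ∧
          Complex.exp l = σ β ∧ ∃ c ∈ C, ∃ (n : ℕ) (α : Fin n → ℂ),
          (∀ i, IsAlgebraic ℚ (α i)) ∧ LinearIndependent ℚ α ∧
          ¬ W ≤ Submodule.span ℚ (range α) ∧ ¬ AI α (c + l)} x / Real.log x) atTop (𝓝 0)) ∧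
      (W ≠ ⊥ → ∀ C : Submodule ℚ ℂ, FiniteDimensional ℚ C →
        Summable ({I : Ideal (𝓞 k) | ∃ (β : 𝓞 k) (l : ℂ), Ideal.span {β} = I ∧
          Complex.exp l = σ β ∧ ∃ c ∈ C, ∃ (n : ℕ) (α : Fin n → ℂ),
          (∀ i, IsAlgebraic ℚ (α i)) ∧ LinearIndependent ℚ α ∧
          Disjoint (Submodule.span ℚ (range α)) W ∧ ¬ AI α (c + l)}.indicator
            (fun I : Ideal (𝓞 k) => (Ideal.absNorm I : ℝ)⁻¹))) ∧
      (W ≠ ⊥ → ∃ C : Submodule ℚ ℂ, FiniteDimensional ℚ C ∧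
        ∃ δ : ℝ, 0 < δ ∧ ∀ᶠ x : ℕ in atTop, δ * Real.log x ≤ ids k {I | (∃ β : 𝓞 k,
          Ideal.span {β} = I) ∧ ∀ (β : 𝓞 k) (l : ℂ), Ideal.span {β} = I →
          Complex.exp l = σ β → ∃ c ∈ C, ∀ (n : ℕ) (α : Fin n → ℂ),
          (∀ i, IsAlgebraic ℚ (α i)) → LinearIndependent ℚ α →
          W ≤ Submodule.span ℚ (range α) → ¬ AI α (c + l)} x) := by
  classical
  obtain ⟨V, hVg, hVc, hVu⟩ := exists_universal hadm hgrp hspg hmno hcps hins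
  refine ⟨V, hVg.1, hVg.2, hVc, fun k _ _ σ => ?_⟩
  obtain ⟨W, hor, hW1, hW2, hW3, hW4, hW5, hW6, hW7⟩ := main_k hzs hlos hcmk htwo hcut hmta hlim
    hexk hfra hgrp hzex hpos hrrk hadm hcnt hshift htoi hisl hcnz hgen hlg hind hconj hcls hbr k σ
  have hVW : W = ⊥ ∨ V ≠ ⊥ ∧ V ≤ W := by
    refine hor.imp_right ?_
    rintro ⟨h, γ, C, hγ, hC⟩
    obtain ⟨C', hC'⟩ := hnrm k σ h γ hγ C W hC
    exact hVu k C' W hC'
  refine ⟨?_, W, hVW, hW1, hW2, hW3, hW4, hW5, hW6, hW7⟩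
  intro n C hC
  obtain ⟨L, hL⟩ := hisl k
  unfold ids
  simp only [hbr k L hL]
  by_cases hW0 : W = ⊥
  · have h1 := hW4 hW0 n C hC
    unfold ids at h1
    simp only [hbr k L hL] at h1
    refine LN.mono h1 ?_
    rintro m ⟨β, l, h1, h2, c, hc, α, h3, h4, -, h5⟩
    exact ⟨β, l, h1, h2, c, hc, α, h3, h4, h5⟩
  · have h1 := hW5 hW0 C hC
    unfold ids at h1
    simp only [hbr k L hL] at h1
    refine LN.mono h1 ?_
    rintro m ⟨β, l, h1, h2, c, hc, α, h3, h4, h6, h5⟩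
    refine ⟨β, l, h1, h2, c, hc, n, α, h3, h4, fun hle => ?_, h5⟩
    rcases hVW with h | ⟨hV0, hV1⟩
    · exact hW0 h
    · rcases h6 with h | h
      · exact hV0 h
      · exact h (hV1.trans hle)

end Pool.Agent.Lib.MP_c82530_nt.AJ
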