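import Pool.Agent.Lib.MP_c82530_nt.AJ.Stm

set_option autoImplicit false

/-!
# Piece CPS: two number fields embed into a Galois number field
-/

namespace Pool.Agent.Lib.MP_c82530_nt.AJ

open Module

private theorem cps_normal : Normal ℚ (AlgebraicClosure ℚ) := by
  convert @IsAlgClosure.normal ℚ (AlgebraicClosure ℚ) _ _ (AlgebraicClosure.instAlgebra ℚ) _
  exact Subsingleton.elim _ _

theorem p_cps : S_cps := by
  intro K₁ K₂ _ _ _ _
  let f₁ : K₁ →ₐ[ℚ] AlgebraicClosure ℚ := IsAlgClosed.lift
  let f₂ : K₂ →ₐ[ℚ] AlgebraicClosure ℚ := IsAlgClosed.lift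
  have h1 : FiniteDimensional ℚ f₁.fieldRange :=
    LinearEquiv.finiteDimensional (AlgEquiv.ofInjectiveField f₁).toLinearEquiv
  have h2 : FiniteDimensional ℚ f₂.fieldRange :=
    LinearEquiv.finiteDimensional (AlgEquiv.ofInjectiveField f₂).toLinearEquiv
  let E : IntermediateField ℚ (AlgebraicClosure ℚ) := f₁.fieldRange ⊔ f₂.fieldRange
  have hE : FiniteDimensional ℚ E := IntermediateField.finiteDimensional_sup _ _
  have hA : Normal ℚ (AlgebraicClosure ℚ) := cps_normal
  let L : IntermediateField ℚ (AlgebraicClosure ℚ) :=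
    IntermediateField.normalClosure ℚ E (AlgebraicClosure ℚ)
  have hL : FiniteDimensional ℚ L := inferInstance
  have hN : Normal ℚ L := normalClosure.normal ℚ E (AlgebraicClosure ℚ)
  have hle : E ≤ L := IntermediateField.le_normalClosure E
  have hG : IsGalois ℚ L := { }
  refine ⟨L, inferInstance, ⟨⟩, ?_, ⟨?_⟩, ⟨?_⟩⟩
  · convert hG
  · exact ((IntermediateField.inclusion (le_sup_left.trans hle)).comp
      f₁.rangeRestrict).toRingHom
  · exact ((IntermediateField.inclusion (le_sup_right.trans hle)).comp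
      f₂.rangeRestrict).toRingHom

end Pool.Agent.Lib.MP_c82530_nt.AJ
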