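import Pool.Agent.Lib.MP_c82530_nt.AJ.Stm

set_option autoImplicit false

/-!
# Piece DVN: the sum of the inverse norms of the primes of a number field diverges
-/

namespace Pool.Agent.Lib.MP_c82530_nt.AJ

open Set Pool.Agent.Lib.MP_c82530_nt Pool.Agent.Lib.MP_c82530_nt.AA
  Pool.Agent.Lib.MP_c82530_nt.AG Module Filter Topology
open NumberField IsDedekindDomain

theorem p_dvn (hcnt : AG.S_cnt) (htoi : AG.S_toi) (hisl : AG.S_isl) (hcnz : AG.S_cnz)
    (hzs : AG.S_zs) (hzex : AG.S_zex) : S_dvn := by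
  classical
  intro K _ _ B
  obtain ⟨L, hL⟩ := hisl K
  obtain ⟨t1, -⟩ := htoi K
  obtain ⟨κ, hκ, hlim⟩ := hcnz K L hL
  obtain ⟨-, c, hc, hev⟩ := hcnt _ (qn K) L t1 hL κ hκ hlim
  have hlog : Tendsto (fun x : ℕ => c * Real.log (x : ℝ)) atTop atTop :=
    (Real.tendsto_log_atTop.comp tendsto_natCast_atTop_atTop).const_mul_atTop hc
  obtain ⟨x, hx1, hx2⟩ := (hev.and (hlog.eventually_ge_atTop (Real.exp (2 * B)))).exists
  refine ⟨(L x).biUnion fun m => m.support, ?_⟩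
  set P := (L x).biUnion fun m => m.support with hP
  have h1 : AG.Wt (qn K) univ (L x) = ∑ m ∈ L x, (AG.nm (qn K) m : ℝ)⁻¹ := by
    unfold AG.Wt
    simp
  have h2 := hzs _ (qn K) t1 P (L x) fun m hm => by
    rw [hP]
    exact Finset.subset_biUnion_of_mem (fun m : HeightOneSpectrum (𝓞 K) →₀ ℕ => m.support) hm
  have h3 := hzex _ (qn K) t1 P
  have h4 : Real.exp (2 * B) ≤ Real.exp (2 * ∑ i ∈ P, (qn K i : ℝ)⁻¹) := by
    rw [h1] at hx1
    exact hx2.trans (hx1.trans (h2.trans h3))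
  rw [Real.exp_le_exp] at h4
  linarith

end Pool.Agent.Lib.MP_c82530_nt.AJ
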