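import Pool.Agent.Lib.MP_c82530_nt.AJ.Stm
import Pool.Agent.Lib.MP_c82530_nt.LWMain

set_option autoImplicit false

/-!
# Piece INS: the real logarithms of the prime numbers are independent modulo algebraic numbers
-/

namespace Pool.Agent.Lib.MP_c82530_nt.AJ

open Set Pool.Agent.Lib.MP_c82530_nt Pool.Agent.Lib.MP_c82530_nt.AA
  Pool.Agent.Lib.MP_c82530_nt.AG Module Filter Topology
open NumberField IsDedekindDomain

/-- a common denominator -/
private theorem ins_den {ι : Type} (a : ι →₀ ℚ) : ∃ (N : ℕ) (b : ι →₀ ℤ), 0 < N ∧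
    ∀ i, ((b i : ℤ) : ℚ) = N * a i := by
  classical
  let N : ℕ := ∏ i ∈ a.support, (a i).den
  have hN : 0 < N := Finset.prod_pos fun i _ => (a i).pos
  refine ⟨N, a.mapRange (fun t => ((N : ℚ) * t).num) (by simp), hN, ?_⟩
  intro i
  rw [Finsupp.mapRange_apply]
  by_cases hi : a i = 0
  · simp [hi]
  · have h1 : (a i).den ∣ N := Finset.dvd_prod_of_mem (fun i => (a i).den) (by simpa using hi)
    obtain ⟨c, hc⟩ := h1
    have h2 : (N : ℚ) * a i = ((c * (a i).num : ℤ) : ℚ) := by
      rw [hc]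
      conv_lhs => rw [← Rat.num_div_den (a i)]
      have h3 : ((a i).den : ℚ) ≠ 0 := by exact_mod_cast (a i).den_nz
      rw [Rat.num_div_den]
      push_cast
      nth_rewrite 2 [← Rat.num_div_den (a i)]
      field_simp
    rw [h2, Rat.num_intCast]

private theorem ins_fact {S : Set ℕ} (P : Finset (Ps S)) (k : Ps S → ℕ) {q : Ps S}
    (hq : q ∈ P) : (∏ p ∈ P, p.1 ^ k p).factorization q.1 = k q := by
  classical
  rw [Nat.factorization_prod (fun p _ => pow_ne_zero _ p.2.1.ne_zero), Finsupp.coe_finsetSum,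
    Finset.sum_apply, Finset.sum_eq_single q]
  · rw [Nat.Prime.factorization_pow q.2.1, Finsupp.single_eq_same]
  · intro p _ hpq
    rw [Nat.Prime.factorization_pow p.2.1, Finsupp.single_apply, if_neg]
    exact fun h => hpq (Subtype.ext h)
  · exact fun h => absurd hq h

theorem p_ins : S_ins := by
  classical
  intro S a ha
  obtain ⟨N, b, hN, hb⟩ := ins_den a
  have hpos : ∀ p : Ps S, (0 : ℝ) < (p.1 : ℝ) := fun p => by exact_mod_cast p.2.1.pos
  have hne : ∀ p : Ps S, ((p.1 : ℕ) : ℂ) ≠ 0 := fun p => by exact_mod_cast p.2.1.ne_zero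
  -- the logarithm
  let l : ℂ := ∑ p ∈ a.support, (b p : ℂ) * fs S p
  have hl : l = (N : ℂ) * (a.sum fun i t => (t : ℂ) * fs S i) := by
    rw [Finsupp.sum, Finset.mul_sum]
    refine Finset.sum_congr rfl fun v _ => ?_
    have h1 : ((b v : ℤ) : ℂ) = (N : ℂ) * ((a v : ℚ) : ℂ) := by
      have := hb v
      have h2 : (((b v : ℤ) : ℚ) : ℂ) = ((N * a v : ℚ) : ℂ) := by rw [this]
      push_cast at h2
      exact h2
    rw [h1]
    ring
  have hlalg : IsAlgebraic ℚ l := by
    rw [hl]
    exact IsAlgebraic.mul (isAlgebraic_natCast N) ha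
  have hexpf : ∀ p : Ps S, Complex.exp (fs S p) = ((p.1 : ℕ) : ℂ) := by
    intro p
    rw [fs, ← Complex.ofReal_exp, Real.exp_log (hpos p)]
    norm_cast
  have hexp : Complex.exp l = ∏ p ∈ a.support, ((p.1 : ℕ) : ℂ) ^ (b p) := by
    rw [Complex.exp_sum]
    refine Finset.prod_congr rfl fun v _ => ?_
    rw [Complex.exp_int_mul, hexpf]
  have hexpalg : IsAlgebraic ℚ (Complex.exp l) := by
    have h1 : Complex.exp l =
        algebraMap ℚ ℂ (∏ p ∈ a.support, ((p.1 : ℕ) : ℚ) ^ (b p)) := by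
      rw [hexp, map_prod]
      refine Finset.prod_congr rfl fun v _ => ?_
      rw [map_zpow₀, map_natCast]
    rw [h1]
    exact isAlgebraic_algebraMap _
  have hl0 : l = 0 := by
    by_contra hne
    exact log_transcendental hexpalg hne hlalg
  rw [hl0, Complex.exp_zero] at hexp
  -- the positive and the negative parts
  have hprod : ∏ p ∈ a.support, p.1 ^ (b p).toNat = ∏ p ∈ a.support, p.1 ^ (-(b p)).toNat := by
    have h1 : ((∏ p ∈ a.support, p.1 ^ (b p).toNat : ℕ) : ℂ) =
        ((∏ p ∈ a.support, p.1 ^ (-(b p)).toNat : ℕ) : ℂ) := by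
      have h2 : ∀ p : Ps S, ((p.1 : ℕ) : ℂ) ^ (b p).toNat =
          ((p.1 : ℕ) : ℂ) ^ (b p) * ((p.1 : ℕ) : ℂ) ^ (-(b p)).toNat := by
        intro p
        rw [← zpow_natCast, ← zpow_natCast, ← zpow_add₀ (hne p)]
        congr 1
        omega
      push_cast
      rw [Finset.prod_congr rfl fun v _ => h2 v, Finset.prod_mul_distrib, ← hexp, one_mul]
    exact_mod_cast h1
  ext p
  rw [Finsupp.zero_apply]
  by_contra hp
  have hps : p ∈ a.support := Finsupp.mem_support_iff.2 hp
  have h1 := ins_fact a.support (fun p => (b p).toNat) hps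
  have h2 := ins_fact a.support (fun p => (-(b p)).toNat) hps
  rw [hprod, h2] at h1
  have h3 : b p = 0 := by omega
  have h4 := hb p
  rw [h3, Int.cast_zero] at h4
  have h5 : (N : ℚ) ≠ 0 := by exact_mod_cast hN.ne'
  exact (mul_ne_zero h5 hp) h4.symm

end Pool.Agent.Lib.MP_c82530_nt.AJ
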