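import Pool.Agent.Lib.MP_c82530_nt.AJ.Stm

set_option autoImplicit false

/-! # Piece MNO: `SP` is decreasing -/

namespace Pool.Agent.Lib.MP_c82530_nt.AJ

open NumberField IsDedekindDomain

/-- piece MNO -/
theorem p_mno : S_mno := by
  intro K L _ _ _ _ φ p hp hL v hv
  let : Algebra K L := φ.toAlgebra
  have hmax : v.asIdeal.IsMaximal := v.isMaximal
  obtain ⟨Q, hQ, hQv⟩ := Ideal.exists_ideal_over_maximal_of_isIntegral (S := 𝓞 L) v.asIdeal (by
    rw [(RingHom.injective_iff_ker_eq_bot (algebraMap (𝓞 K) (𝓞 L))).1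
      (FaithfulSMul.algebraMap_injective (𝓞 K) (𝓞 L))]
    exact bot_le)
  have hpQ : (p : 𝓞 L) ∈ Q := by
    have h1 : (p : 𝓞 K) ∈ Q.comap (algebraMap (𝓞 K) (𝓞 L)) := by
      rw [hQv]
      exact hv
    rw [Ideal.mem_comap, map_natCast] at h1
    exact h1
  have hne : Q ≠ ⊥ := by
    rintro rfl
    rw [Ideal.mem_bot, Nat.cast_eq_zero] at hpQ
    exact hp.ne_zero hpQ
  have hQp : Ideal.absNorm Q = p := hL ⟨Q, hQ.isPrime, hne⟩ hpQ
  -- the residue field of `v` embeds into that of `Q`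
  let f : 𝓞 K ⧸ v.asIdeal →+* 𝓞 L ⧸ Q :=
    Ideal.quotientMap Q (algebraMap (𝓞 K) (𝓞 L)) hQv.ge
  have hf : Function.Injective f := Ideal.quotientMap_injective' hQv.le
  have hdvd : Ideal.absNorm v.asIdeal ∣ Ideal.absNorm Q := by
    rw [Ideal.absNorm_apply, Ideal.absNorm_apply, Submodule.cardQuot_apply,
      Submodule.cardQuot_apply]
    exact AddSubgroup.card_dvd_of_injective f.toAddMonoidHom hf
  rw [hQp, Nat.dvd_prime hp] at hdvd
  rcases hdvd with h | h
  · exact absurd (Ideal.absNorm_eq_one_iff.1 h) hmax.ne_top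
  · exact h

end Pool.Agent.Lib.MP_c82530_nt.AJ
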