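import Pool.Agent.Lib.MP_c82530_nt.AJ.Stm

set_option autoImplicit false
set_option linter.deprecated false

/-!
# Piece SPG: the sum of `1 / p` over the completely split (or norm `p`) primes diverges
-/

namespace Pool.Agent.Lib.MP_c82530_nt.AJ

open Set Pool.Agent.Lib.MP_c82530_nt Pool.Agent.Lib.MP_c82530_nt.AA
  Pool.Agent.Lib.MP_c82530_nt.AG Module Filter Topology
open NumberField IsDedekindDomain

/-- `w` lies over `p`. -/
private lemma spg_over {L : Type} [Field L] [NumberField L] {p : ℕ} (hp : p.Prime)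
    (w : HeightOneSpectrum (𝓞 L)) (hw : (p : 𝓞 L) ∈ w.asIdeal) :
    w.asIdeal.LiesOver (Ideal.span {(p : ℤ)}) := by
  have hmax : (Ideal.span {(p : ℤ)}).IsMaximal :=
    PrincipalIdealRing.isMaximal_of_irreducible (Nat.prime_iff_prime_int.1 hp).irreducible
  refine ⟨hmax.eq_of_le ?_ ?_⟩
  · exact (Ideal.IsPrime.under ℤ w.asIdeal).ne_top
  · rw [Ideal.span_singleton_le_iff_mem, Ideal.mem_under]
    simpa using hw

open Pointwise in
/-- The primes above `p` have the same norm. -/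
private lemma spg_norm_eq {L : Type} [Field L] [NumberField L] [IsGalois ℚ L] {p : ℕ}
    (hp : p.Prime) (v w : HeightOneSpectrum (𝓞 L)) (hv : (p : 𝓞 L) ∈ v.asIdeal)
    (hw : (p : 𝓞 L) ∈ w.asIdeal) : Ideal.absNorm v.asIdeal = Ideal.absNorm w.asIdeal := by
  have h1 := spg_over hp v hv
  have h2 := spg_over hp w hw
  have h3 := v.isPrime
  have h4 := w.isPrime
  obtain ⟨σ, hσ⟩ : ∃ σ : Gal(L/ℚ), σ • v.asIdeal = w.asIdeal :=
    Ideal.exists_smul_eq_of_isGaloisGroup (Ideal.span {(p : ℤ)}) v.asIdeal w.asIdeal Gal(L/ℚ)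
  rw [Ideal.pointwise_smul_def] at hσ
  rw [Ideal.absNorm_apply, Ideal.absNorm_apply, Submodule.cardQuot_apply, Submodule.cardQuot_apply]
  exact Nat.card_congr (Ideal.quotientEquiv v.asIdeal w.asIdeal
    (MulSemiringAction.toRingEquiv Gal(L/ℚ) (𝓞 L) σ) hσ.symm).toEquiv

/-- A prime number in `w` and the norm of `w`. -/
private lemma spg_ex {L : Type} [Field L] [NumberField L] (w : HeightOneSpectrum (𝓞 L)) :
    ∃ p : ℕ, p.Prime ∧ (p : 𝓞 L) ∈ w.asIdeal ∧
      (Ideal.absNorm w.asIdeal = p ∨ p ^ 2 ≤ Ideal.absNorm w.asIdeal) := by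
  have hprime : w.asIdeal.IsPrime := w.isPrime
  have hne : Ideal.absNorm w.asIdeal ≠ 0 := by
    rw [Ne, Ideal.absNorm_eq_zero_iff]
    exact w.ne_bot
  have hne1 : Ideal.absNorm w.asIdeal ≠ 1 := by
    rw [Ne, Ideal.absNorm_eq_one_iff]
    exact hprime.ne_top
  have hmem := Ideal.absNorm_mem w.asIdeal
  -- some prime divisor of the norm is in `w`
  have h1 : ∃ p : ℕ, p.Prime ∧ (p : 𝓞 L) ∈ w.asIdeal := by
    have h2 : ∀ n : ℕ, n ≠ 0 → (n : 𝓞 L) ∈ w.asIdeal →
        ∃ p : ℕ, p.Prime ∧ (p : 𝓞 L) ∈ w.asIdeal := by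
      intro n
      induction n using Nat.recOnMul with
      | zero => intro h; exact absurd rfl h
      | one =>
        intro _ h
        rw [Nat.cast_one] at h
        exact absurd ((Ideal.eq_top_iff_one _).2 h) hprime.ne_top
      | prime p hp => exact fun _ h => ⟨p, hp, h⟩
      | mul a b ha hb =>
        intro h0 h
        rw [Nat.cast_mul] at h
        rcases hprime.mem_or_mem h with h | h
        · exact ha (left_ne_zero_of_mul h0) h
        · exact hb (right_ne_zero_of_mul h0) h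
    exact h2 _ hne hmem
  obtain ⟨p, hp, hpw⟩ := h1
  refine ⟨p, hp, hpw, ?_⟩
  have h3 := spg_over hp w hpw
  have h4 := Ideal.absNorm_eq_pow_inertiaDeg' w.asIdeal hp
  rw [h4]
  rcases Nat.lt_or_ge ((Ideal.span {(p : ℤ)}).inertiaDeg' w.asIdeal) 2 with h5 | h5
  · left
    interval_cases h6 : (Ideal.span {(p : ℤ)}).inertiaDeg' w.asIdeal
    · rw [pow_zero] at h4
      exact absurd h4 hne1
    · simp
  · right
    exact Nat.pow_le_pow_right hp.pos h5

/-- The number of the primes above `p`. -/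
private lemma spg_card {L : Type} [Field L] [NumberField L] {p : ℕ} (hp : p.Prime)
    (P : Finset (HeightOneSpectrum (𝓞 L))) (hP : ∀ w ∈ P, (p : 𝓞 L) ∈ w.asIdeal) :
    P.card ≤ finrank ℚ L := by
  classical
  have hmax : (Ideal.span {(p : ℤ)}).IsMaximal :=
    PrincipalIdealRing.isMaximal_of_irreducible (Nat.prime_iff_prime_int.1 hp).irreducible
  have hbot : Ideal.span {(p : ℤ)} ≠ ⊥ := by
    rw [Ne, Ideal.span_singleton_eq_bot]
    exact_mod_cast hp.ne_zero
  refine le_trans ?_ (Ideal.card_primesOverFinset_le_finrank (𝓞 L) ℚ L hbot)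
  refine Finset.card_le_card_of_injOn (fun w => w.asIdeal) ?_ ?_
  · intro w hw
    rw [Finset.mem_coe, IsDedekindDomain.mem_primesOverFinset_iff hbot]
    exact ⟨w.isPrime, spg_over hp w (hP w hw)⟩
  · intro v _ w _ h
    exact HeightOneSpectrum.ext h

/-- Piece SPG. -/
theorem p_spg (hdvn : S_dvn) : S_spg := by
  classical
  intro L _ _ _ B
  set d : ℕ := finrank ℚ L with hd
  have hdpos : 0 < d := finrank_pos
  obtain ⟨P, hP⟩ := hdvn L (d * B + d * 2)
  choose pr hpr1 hpr2 hpr3 using fun w : HeightOneSpectrum (𝓞 L) => spg_ex w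
  set P1 := P.filter fun w => Ideal.absNorm w.asIdeal = pr w with hP1
  set P2 := P.filter fun w => ¬ Ideal.absNorm w.asIdeal = pr w with hP2
  refine ⟨P1.image pr, ?_, ?_⟩
  · intro p hp
    obtain ⟨w, hw, rfl⟩ := Finset.mem_image.1 hp
    refine ⟨hpr1 w, ?_⟩
    intro v hv
    rw [spg_norm_eq (hpr1 w) v w hv (hpr2 w)]
    exact (Finset.mem_filter.1 hw).2
  -- fibres
  have hfib : ∀ (Q : Finset (HeightOneSpectrum (𝓞 L))) (g : ℕ → ℝ), (∀ n, 0 ≤ g n) →
      ∑ w ∈ Q, g (pr w) ≤ d * ∑ p ∈ Q.image pr, g p := by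
    intro Q g hg
    rw [← Finset.sum_fiberwise_of_maps_to (t := Q.image pr) (g := pr)
      (fun w hw => Finset.mem_image_of_mem pr hw), Finset.mul_sum]
    refine Finset.sum_le_sum fun p hp => ?_
    have h1 : ∑ w ∈ Q.filter (fun w => pr w = p), g (pr w) =
        (Q.filter fun w => pr w = p).card * g p := by
      rw [← nsmul_eq_mul, ← Finset.sum_const]
      refine Finset.sum_congr rfl fun w hw => ?_
      rw [(Finset.mem_filter.1 hw).2]
    rw [h1]
    refine mul_le_mul_of_nonneg_right ?_ (hg p)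
    obtain ⟨w0, -, hw0⟩ := Finset.mem_image.1 hp
    have h2 := spg_card (L := L) (p := p) (hw0 ▸ hpr1 w0) (Q.filter fun w => pr w = p)
      (fun w hw => by
        have := hpr2 w
        rwa [(Finset.mem_filter.1 hw).2] at this)
    exact_mod_cast h2
  have h1 : ∑ w ∈ P1, (qn L w : ℝ)⁻¹ ≤ d * ∑ p ∈ P1.image pr, (p : ℝ)⁻¹ := by
    refine le_trans (le_of_eq ?_) (hfib P1 (fun n => (n : ℝ)⁻¹) fun n => by positivity)
    refine Finset.sum_congr rfl fun w hw => ?_
    rw [qn, (Finset.mem_filter.1 hw).2]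
  have h2 : ∑ w ∈ P2, (qn L w : ℝ)⁻¹ ≤ d * ∑ p ∈ P2.image pr, ((p : ℝ) ^ 2)⁻¹ := by
    refine le_trans (Finset.sum_le_sum fun w hw => ?_)
      (hfib P2 (fun n => ((n : ℝ) ^ 2)⁻¹) fun n => by positivity)
    have h3 : pr w ^ 2 ≤ qn L w := (hpr3 w).resolve_left (Finset.mem_filter.1 hw).2
    have h4 : (0 : ℝ) < (pr w : ℝ) ^ 2 := by
      have := (hpr1 w).pos
      positivity
    refine inv_anti₀ h4 ?_
    exact_mod_cast h3
  have h3 : ∑ p ∈ P2.image pr, ((p : ℝ) ^ 2)⁻¹ ≤ 2 := by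
    have hsub : P2.image pr ⊆ Finset.Ioc 1 (((P2.image pr).sup id) + 1) := by
      intro p hp
      rw [Finset.mem_Ioc]
      obtain ⟨w, -, rfl⟩ := Finset.mem_image.1 hp
      refine ⟨(hpr1 w).one_lt, le_trans (Finset.le_sup (f := id) hp) (Nat.le_succ _)⟩
    refine le_trans (Finset.sum_le_sum_of_subset_of_nonneg hsub fun _ _ _ => by positivity) ?_
    have h5 := sum_Ioc_inv_sq_le_sub (α := ℝ) (k := 1) (n := ((P2.image pr).sup id) + 1)
      one_ne_zero (Nat.le_add_left _ _)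
    refine le_trans h5 ?_
    have h6 : (0 : ℝ) ≤ ((((P2.image pr).sup id) + 1 : ℕ) : ℝ)⁻¹ := by positivity
    push_cast at h6 ⊢
    linarith
  have h4 : ∑ w ∈ P, (qn L w : ℝ)⁻¹ = ∑ w ∈ P1, (qn L w : ℝ)⁻¹ + ∑ w ∈ P2, (qn L w : ℝ)⁻¹ :=
    (Finset.sum_filter_add_sum_filter_not P _ _).symm
  have hd0 : (0 : ℝ) < d := by exact_mod_cast hdpos
  have h5 : (d : ℝ) * B + d * 2 ≤ d * ∑ p ∈ P1.image pr, (p : ℝ)⁻¹ + d * 2 := by
    calc (d : ℝ) * B + d * 2 ≤ ∑ w ∈ P, (qn L w : ℝ)⁻¹ := hP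
      _ = _ := h4
      _ ≤ d * ∑ p ∈ P1.image pr, (p : ℝ)⁻¹ + d * ∑ p ∈ P2.image pr, ((p : ℝ) ^ 2)⁻¹ :=
        add_le_add h1 h2
      _ ≤ _ := by
        have := mul_le_mul_of_nonneg_left h3 hd0.le
        linarith
  exact le_of_mul_le_mul_left (by linarith) hd0

end Pool.Agent.Lib.MP_c82530_nt.AJ
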