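import Pool.Agent.Lib.MP_c82530_nt.AJ.Stm

set_option autoImplicit false

/-!
# Piece NRM: from the primes of `K` to the prime numbers (helper20)
-/

namespace Pool.Agent.Lib.MP_c82530_nt.AJ

open Set Pool.Agent.Lib.MP_c82530_nt Pool.Agent.Lib.MP_c82530_nt.AA
  Pool.Agent.Lib.MP_c82530_nt.AG Module Filter Topology
open NumberField IsDedekindDomain

private lemma nrm_exp {K : Type} [Field K] [NumberField K] (σ : K →+* ℂ) (S : Set ℕ) (p : Ps S) :
    Complex.exp (fs S p) = σ ((p.1 : 𝓞 K) : K) := by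
  have hp : (0 : ℝ) < (p.1 : ℝ) := by exact_mod_cast p.2.1.pos
  unfold fs
  rw [← Complex.ofReal_exp, Real.exp_log hp]
  simp

theorem p_nrm (hlg : S_lg) (htoi : S_toi) : S_nrm := by
  classical
  intro K _ _ σ h γ hγ C W hCoP
  obtain ⟨hC, hW, B, hB⟩ := hCoP
  obtain ⟨Ck, hCk, hlgk⟩ := hlg K σ h γ hγ
  obtain ⟨-, -, -, hsurj, -⟩ := htoi K
  have key : ∀ p : Ps (SP K), fs (SP K) p ∉ (C ⊔ Ck) ⊔ KK W →
      ∃ w : HeightOneSpectrum (𝓞 K), qn K w = p.1 ∧ fn σ h γ w ∉ C ⊔ KK W := by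
    intro p hp
    by_contra hno
    push Not at hno
    have hp0 : ((p.1 : ℕ) : 𝓞 K) ≠ 0 := by
      exact_mod_cast p.2.1.ne_zero
    obtain ⟨m, hm⟩ := hsurj (Ideal.span {((p.1 : ℕ) : 𝓞 K)}) (by
      rw [Ne, Ideal.span_singleton_eq_bot]
      exact hp0)
    have h1 := hlgk m ((p.1 : ℕ) : 𝓞 K) (fs (SP K) p) hm.symm (nrm_exp σ (SP K) p)
    have h2 : Fv (fn σ h γ) m ∈ C ⊔ KK W := by
      unfold Fv
      apply Submodule.sum_mem
      intro w hw
      have e : ((m w : ℕ) : ℂ) * fn σ h γ w = ((m w : ℕ) : ℚ) • fn σ h γ w := by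
        rw [Rat.smul_def]; push_cast; rfl
      change ((m w : ℕ) : ℂ) * fn σ h γ w ∈ C ⊔ KK W
      rw [e]
      refine Submodule.smul_mem _ _ (hno w ?_)
      have hmem : ((p.1 : ℕ) : 𝓞 K) ∈ w.asIdeal := by
        have h3 : toI m ≤ w.asIdeal := by
          unfold toI Finsupp.prod
          refine (Ideal.prod_le_inf).trans ((Finset.inf_le hw).trans ?_)
          exact Ideal.pow_le_self (Finsupp.mem_support_iff.1 hw)
        apply h3
        rw [hm]
        exact Ideal.mem_span_singleton_self _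
      exact p.2.2 w hmem
    apply hp
    have h4 : fs (SP K) p = (fs (SP K) p - Fv (fn σ h γ) m) + Fv (fn σ h γ) m := by ring
    rw [h4]
    apply Submodule.add_mem
    · exact Submodule.mem_sup_left (Submodule.mem_sup_right h1)
    · exact (sup_le_sup_right (le_sup_left : C ≤ C ⊔ Ck) (KK W)) h2
  rcases isEmpty_or_nonempty (HeightOneSpectrum (𝓞 K)) with hE | hN
  · refine ⟨C ⊔ Ck, Submodule.finiteDimensional_sup C Ck, hW, B, fun P => ?_⟩
    have h5 : AG.EK (qs (SP K)) (fs (SP K)) ((C ⊔ Ck) ⊔ KK W) P = 0 := by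
      unfold AG.EK
      refine Finset.sum_eq_zero fun p _ => ?_
      rw [Set.indicator_of_notMem]
      intro hp
      obtain ⟨w, _⟩ := key p hp
      exact hE.elim w
    have h6 := hB ∅
    unfold AG.EK at h6
    rw [Finset.sum_empty] at h6
    rw [h5]
    exact h6
  choose! g hg1 hg2 using key
  refine ⟨C ⊔ Ck, Submodule.finiteDimensional_sup C Ck, hW, B, fun P => ?_⟩
  set Q : Finset (Ps (SP K)) := P.filter fun p => fs (SP K) p ∉ (C ⊔ Ck) ⊔ KK W with hQ
  have hinj : Set.InjOn g (Q : Set (Ps (SP K))) := by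
    intro p hp p' hp' he
    have hp1 := (Finset.mem_filter.1 (Finset.mem_coe.1 hp)).2
    have hp1' := (Finset.mem_filter.1 (Finset.mem_coe.1 hp')).2
    apply Subtype.ext
    rw [← hg1 p hp1, ← hg1 p' hp1', he]
  calc AG.EK (qs (SP K)) (fs (SP K)) ((C ⊔ Ck) ⊔ KK W) P
      = ∑ p ∈ Q, (qs (SP K) p : ℝ)⁻¹ := by
        unfold AG.EK
        rw [hQ, Finset.sum_filter]
        refine Finset.sum_congr rfl fun p _ => ?_
        rw [Set.indicator_apply]
        rfl
    _ = ∑ p ∈ Q, (qn K (g p) : ℝ)⁻¹ := by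
        refine Finset.sum_congr rfl fun p hp => ?_
        rw [hg1 p (Finset.mem_filter.1 hp).2]
        rfl
    _ = ∑ w ∈ Q.image g, (qn K w : ℝ)⁻¹ := by
        rw [Finset.sum_image hinj]
    _ = AG.EK (qn K) (fn σ h γ) (C ⊔ KK W) (Q.image g) := by
        unfold AG.EK
        refine Finset.sum_congr rfl fun w hw => ?_
        obtain ⟨p, hp, rfl⟩ := Finset.mem_image.1 hw
        rw [Set.indicator_of_mem]
        exact hg2 p (Finset.mem_filter.1 hp).2
    _ ≤ B := hB _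

end Pool.Agent.Lib.MP_c82530_nt.AJ
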